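import Mathlib

set_option autoImplicit false

/-!
# The algebra of an automaton which reads words `L a a ⋯ a k b b ⋯ b R`
-/

namespace Pool.Agent.K6.H80.EQ

universe u

/-- the generators -/
inductive Gen (K : Type) : Type
  | L : Gen K
  | R : Gen K
  | a (j : Bool) : Gen K
  | b (j : Bool) : Gen K
  | st (k : K) : Gen K

/-- the states -/
inductive St (K : Type) : Type
  | dead : St K
  | init : St K
  | A (i : Bool → ℕ) : St K
  | B (k : K) (i i' : Bool → ℕ) : St K
  | fin (k : K) (i i' : Bool → ℕ) : St K

variable {K : Type}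

/-- reading a letter -/
def read : St K → Gen K → St K
  | .init, .L => .A 0
  | .A i, .a j => .A (i + Pi.single j 1)
  | .A i, .st k => .B k i 0
  | .B k i i', .b j => .B k i (i' + Pi.single j 1)
  | .B k i i', .R => .fin k i i'
  | _, _ => .dead

/-- reading a word -/
def readW (σ : St K) (w : List (Gen K)) : St K := w.foldl read σ

@[simp] theorem readW_nil (σ : St K) : readW σ [] = σ := rfl
@[simp] theorem readW_cons (σ : St K) (g : Gen K) (w : List (Gen K)) :
    readW σ (g :: w) = readW (read σ g) w := rfl
theorem readW_append (σ : St K) (w w' : List (Gen K)) :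
    readW σ (w ++ w') = readW (readW σ w) w' := List.foldl_append

@[simp] theorem read_dead (g : Gen K) : read .dead g = .dead := by cases g <;> rfl
@[simp] theorem readW_dead (w : List (Gen K)) : readW .dead w = .dead := by
  induction w with
  | nil => rfl
  | cons g w ih => rw [readW_cons, read_dead, ih]

section F

variable {F : Type u} [Field F] (ν : K → (Bool → ℕ) → (Bool → ℕ) → F)

/-- states with the same behaviour -/
inductive Beh : St K → St K → Prop
  | refl (σ : St K) : Beh σ σ
  | B {k i i' k2 i2 i2'} (h : ∀ m, ν k i (i' + m) = ν k2 i2 (i2' + m)) :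
      Beh (.B k i i') (.B k2 i2 i2')
  | fin {k i i' k2 i2 i2'} (h : ν k i i' = ν k2 i2 i2') : Beh (.fin k i i') (.fin k2 i2 i2')
  | fin0 {k i i'} (h : ν k i i' = 0) : Beh (.fin k i i') .dead

theorem Beh.read {σ σ' : St K} (h : Beh ν σ σ') (g : Gen K) : Beh ν (read σ g) (read σ' g) := by
  cases h with
  | refl => exact .refl _
  | @B k i i' k2 i2 i2' h =>
    cases g with
    | L => exact .refl _
    | R => exact .fin (by simpa using h 0)
    | a j => exact .refl _
    | b j => exact .B fun m => by simpa only [add_assoc] using h (Pi.single j 1 + m)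
    | st k => exact .refl _
  | fin h => cases g <;> exact .refl _
  | fin0 h => cases g <;> exact .refl _

theorem Beh.readW {σ σ' : St K} (h : Beh ν σ σ') (w : List (Gen K)) :
    Beh ν (readW σ w) (readW σ' w) := by
  induction w generalizing σ σ' with
  | nil => exact h
  | cons g w ih => exact ih (h.read ν g)

/-- the functions on states which vanish on the dead state and are equal on states with the same
behaviour -/
def FnS : Submodule F (St K → F) where
  carrier := {f | f .dead = 0 ∧ ∀ σ σ', Beh ν σ σ' → f σ = f σ'}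
  add_mem' := by
    rintro f g ⟨h1, h2⟩ ⟨h3, h4⟩
    refine ⟨by simp [h1, h3], fun σ σ' h => ?_⟩
    simp only [Pi.add_apply, h2 σ σ' h, h4 σ σ' h]
  zero_mem' := ⟨rfl, fun _ _ _ => rfl⟩
  smul_mem' := by
    rintro c f ⟨h1, h2⟩
    refine ⟨by simp [h1], fun σ σ' h => ?_⟩
    simp only [Pi.smul_apply, h2 σ σ' h]

/-- the type of these functions -/
def Fn : Type u := FnS ν

instance : AddCommGroup (Fn ν) := inferInstanceAs (AddCommGroup (FnS ν))
instance : Module F (Fn ν) := inferInstanceAs (Module F (FnS ν))

@[ext] theorem Fn.ext {f g : Fn ν} (h : ∀ σ, f.1 σ = g.1 σ) : f = g := Subtype.ext (funext h)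

theorem Fn.zero_val (σ : St K) : (0 : Fn ν).1 σ = 0 := rfl

/-- the operator of a generator -/
def op (g : Gen K) : Module.End F (Fn ν) where
  toFun f := ⟨fun σ => f.1 (read σ g), by
    refine ⟨?_, fun σ σ' h => f.2.2 _ _ (h.read ν g)⟩
    show f.1 (read .dead g) = 0
    rw [read_dead]
    exact f.2.1⟩
  map_add' _ _ := rfl
  map_smul' _ _ := rfl

theorem op_apply (g : Gen K) (f : Fn ν) (σ : St K) : (op ν g f).1 σ = f.1 (read σ g) := rfl

/-- the operator of a word -/
def opW (w : List (Gen K)) : Module.End F (Fn ν) := (w.map (op ν)).prod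

@[simp] theorem opW_nil : opW ν ([] : List (Gen K)) = 1 := rfl
theorem opW_cons (g : Gen K) (w : List (Gen K)) : opW ν (g :: w) = op ν g * opW ν w := by
  simp [opW]
theorem opW_append (w w' : List (Gen K)) : opW ν (w ++ w') = opW ν w * opW ν w' := by
  simp [opW]

theorem opW_apply (w : List (Gen K)) (f : Fn ν) (σ : St K) :
    (opW ν w f).1 σ = f.1 (readW σ w) := by
  induction w generalizing σ with
  | nil => rfl
  | cons g w ih =>
    rw [opW_cons, Module.End.mul_apply, op_apply, ih]
    rfl

theorem opW_eq {w w' : List (Gen K)} (h : ∀ σ, Beh ν (readW σ w) (readW σ w')) :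
    opW ν w = opW ν w' := by
  ext f σ
  rw [opW_apply, opW_apply]
  exact f.2.2 _ _ (h σ)

theorem opW_eq_zero {w : List (Gen K)} (h : ∀ σ, readW σ w = .dead) : opW ν w = 0 := by
  ext f σ
  rw [opW_apply, h]
  exact f.2.1

/-- the value at final states -/
def outF : St K → F
  | .fin k i i' => ν k i i'
  | _ => 0

/-- the value at final states, as an element of `Fn` -/
def out : Fn ν := ⟨outF ν, rfl, by
  intro σ σ' h
  cases h with
  | refl => rfl
  | B h => rfl
  | fin h => exact h
  | fin0 h => exact h⟩

end F

end Pool.Agent.K6.H80.EQ
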