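import Mathlib

set_option autoImplicit false

/-!
# Quasi-identities of associative algebras and the varieties `M(n)` and `S(n)`
-/

namespace Pool.Agent.K6.H80.EQ

universe u v

/-- the product of the entries of a nonempty list (and `0` for the empty list) -/
def mulList {A : Type v} [Mul A] [Zero A] : List A → A
  | [] => 0
  | a :: l => l.foldl (· * ·) a

/-- The monomial `(c / (d + 1)) x_i x_{j_1} ⋯ x_{j_r}` is given by `((c, d), (i, [j_1, …, j_r]))`. -/
abbrev Mon : Type := (ℤ × ℕ) × (ℕ × List ℕ)

/-- A noncommutative polynomial in `x_0, x_1, …` with rational coefficients and without constant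
term is given as a list of monomials. -/
abbrev Poly : Type := List Mon

/-- The quasi-identity `∀ x, u_1 = 0 ∧ ⋯ ∧ u_k = 0 → u = 0` is given by `([u_1, …, u_k], u)`. -/
abbrev QuasiId : Type := List Poly × Poly

section eval

variable (F : Type u) [Field F] {A : Type v} [NonUnitalRing A] [Module F A]

/-- the value of a monomial -/
def monVal (x : ℕ → A) (m : Mon) : A :=
  ((m.1.1 : F) / ((m.1.2 : F) + 1)) • mulList (x m.2.1 :: m.2.2.map x)

/-- the value of a polynomial -/
def polyVal (x : ℕ → A) (p : Poly) : A := (p.map (monVal F x)).sum

variable (A) in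
/-- the quasi-identity `q` holds in the algebra `A` -/
def HoldsIn (q : QuasiId) : Prop :=
  ∀ x : ℕ → A, (∀ p ∈ q.1, polyVal F x p = 0) → polyVal F x q.2 = 0

/-- the value of a polynomial without constant term with coefficients in `F` (a formal linear
combination of words of positive length) -/
def idVal (x : ℕ → A) (f : FreeSemigroup ℕ →₀ F) : A :=
  f.sum fun w c => c • FreeSemigroup.lift x w

variable (A) in
/-- `A` is in the variety `M(n)` generated by the algebra of `n × n` matrices over `F`: it satisfies
all polynomial identities (with coefficients in `F`) of this algebra. -/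
def InM (n : ℕ) : Prop :=
  ∀ f : FreeSemigroup ℕ →₀ F, (∀ x : ℕ → Matrix (Fin n) (Fin n) F, idVal F x f = 0) →
    ∀ x : ℕ → A, idVal F x f = 0

end eval

/-- `A` satisfies the standard identity of degree `n`. -/
def InS (A : Type v) [NonUnitalRing A] (n : ℕ) : Prop :=
  ∀ x : Fin n → A, ∑ σ : Equiv.Perm (Fin n),
    ((Equiv.Perm.sign σ : ℤ) • mulList (List.ofFn fun i => x (σ i))) = 0

/-- the quasi-identity `q` holds in all algebras of the variety `M(n)` over `F` -/
def HoldsInM (F : Type u) [Field F] (n : ℕ) (q : QuasiId) : Prop :=
  ∀ (A : Type u) [NonUnitalRing A] [Module F A] [IsScalarTower F A A] [SMulCommClass F A A],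
    InM F A n → HoldsIn F A q

/-- the quasi-identity `q` holds in all algebras over `F` which satisfy the standard identity of
degree `n` -/
def HoldsInS (F : Type u) [Field F] (n : ℕ) (q : QuasiId) : Prop :=
  ∀ (A : Type u) [NonUnitalRing A] [Module F A] [IsScalarTower F A A] [SMulCommClass F A A],
    InS A n → HoldsIn F A q

end Pool.Agent.K6.H80.EQ
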