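import Pool.Agent.Helper948.Erode.Source
import Pool.Agent.K6.H80.EQ.Auto

set_option autoImplicit false

/-!
# The relations of a machine
-/

namespace Pool.Agent.K6.H80.EQ

open Pool.Agent.Helper948.Erode

universe u v

variable {Q : Type} (M : Sys Q Bool)

/-- The letters for the states: `(false, q, r)` goes to the left, `(true, q, r)` goes to the right. -/
abbrev KM : Type := Bool × Q × (Bool → Fin M.B)

/-- the next residue of the counter `j` -/
def bump (r : Bool → Fin M.B) (j : Bool) : Bool → Fin M.B :=
  Function.update r j ⟨(r j + 1) % M.B, Nat.mod_lt _ M.hB⟩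

/-- zero residues -/
def z0 : Bool → Fin M.B := fun _ => ⟨0, M.hB⟩

/-- the letters in the word `a_0^(n 0) a_1^(n 1)` -/
def aw (n : Bool → ℕ) : List (Gen (KM M)) :=
  List.replicate (n false) (.a false) ++ List.replicate (n true) (.a true)

/-- the letters in the word `b_0^(n 0) b_1^(n 1)` -/
def bw (n : Bool → ℕ) : List (Gen (KM M)) :=
  List.replicate (n false) (.b false) ++ List.replicate (n true) (.b true)

/-- the indices of the relations -/
inductive RI : Type
  | commA : RI
  | commB : RI
  | left (q : Q) (r : Bool → Fin M.B) (j : Bool) : RI
  | turn (q : Q) (r : Bool → Fin M.B) : RI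
  | right (q : Q) (r : Bool → Fin M.B) (j : Bool) : RI
  | back (q : Q) (r : Bool → Fin M.B) : RI

/-- the relations: both sides are words, or the right side is `0` -/
def rel : RI M → List (Gen (KM M)) × Option (List (Gen (KM M)))
  | .commA => ([.a false, .a true], some [.a true, .a false])
  | .commB => ([.b false, .b true], some [.b true, .b false])
  | .left q r j => ([.a j, .st (false, q, r)], some [.st (false, q, bump M r j), .b j])
  | .turn q r => ([.L, .st (false, q, r)], some [.L, .st (true, q, r)])
  | .right q r j => (.st (true, q, r) :: List.replicate M.B (.b j),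
      some (List.replicate (M.a q r j) (.a j) ++ [.st (true, q, r)]))
  | .back q r => (.st (true, q, r) :: (bw M (fun j => (r j : ℕ)) ++ [.R]),
      (M.nxt q r).map fun q' => aw M (M.b q r) ++ [.st (false, q', z0 M), .R])

/-- the word of a configuration -/
def cw (q : Q) (n : Bool → ℕ) : List (Gen (KM M)) :=
  .L :: (aw M n ++ [.st (false, q, z0 M), .R])

/-! ### Halting implies that the word of the configuration is zero -/

section halt

variable {R : Type v} [Ring R] (y : Gen (KM M) → R)

theorem replicate_a (j : Bool) (m : ℕ) : ((List.replicate m (Gen.a j : Gen (KM M))).map y).prod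
    = y (.a j) ^ m := by simp

theorem replicate_b (j : Bool) (m : ℕ) : ((List.replicate m (Gen.b j : Gen (KM M))).map y).prod
    = y (.b j) ^ m := by simp

variable (h : ∀ ρ : RI M, ((rel M ρ).1.map y).prod =
  (rel M ρ).2.elim 0 fun w => (w.map y).prod)

include h

theorem commA : Commute (y (.a false)) (y (.a true)) := by
  have := h .commA
  simp only [rel, List.map_cons, List.map_nil, List.prod_cons, List.prod_nil, mul_one,
    Option.elim_some] at this
  exact this

theorem commB : Commute (y (.b false)) (y (.b true)) := by
  have := h .commB
  simp only [rel, List.map_cons, List.map_nil, List.prod_cons, List.prod_nil, mul_one,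
    Option.elim_some] at this
  exact this

theorem left (q : Q) (r : Bool → Fin M.B) (j : Bool) (m : ℕ) :
    y (.a j) ^ m * y (.st (false, q, r)) =
      y (.st (false, q, Function.update r j ⟨(r j + m) % M.B, Nat.mod_lt _ M.hB⟩)) *
        y (.b j) ^ m := by
  induction m generalizing r with
  | zero =>
    have e : Function.update r j ⟨((r j : ℕ) + 0) % M.B, Nat.mod_lt _ M.hB⟩ = r := by
      rw [add_zero]
      have : (⟨(r j : ℕ) % M.B, Nat.mod_lt _ M.hB⟩ : Fin M.B) = r j :=
        Fin.ext (Nat.mod_eq_of_lt (r j).2)
      rw [this, Function.update_eq_self]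
    rw [e]; simp
  | succ m ih =>
    have h1 := h (.left q r j)
    simp only [rel, List.map_cons, List.map_nil, List.prod_cons, List.prod_nil, mul_one,
      Option.elim_some] at h1
    rw [pow_succ, mul_assoc, h1, ← mul_assoc, ih, mul_assoc, ← pow_succ]
    have e : Function.update (bump M r j) j
        ⟨((bump M r j j : ℕ) + m) % M.B, Nat.mod_lt _ M.hB⟩ =
        Function.update r j ⟨((r j : ℕ) + (m + 1)) % M.B, Nat.mod_lt _ M.hB⟩ := by
      have e1 : (bump M r j j : ℕ) = ((r j : ℕ) + 1) % M.B := by simp [bump]
      have e2 : (⟨((bump M r j j : ℕ) + m) % M.B, Nat.mod_lt _ M.hB⟩ : Fin M.B) =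
          ⟨((r j : ℕ) + (m + 1)) % M.B, Nat.mod_lt _ M.hB⟩ := by
        apply Fin.ext
        simp only [e1, Nat.mod_add_mod]
        congr 1
        ring
      rw [e2, bump, Function.update_idem]
    rw [e]

theorem leftW (q : Q) (n : Bool → ℕ) :
    ((aw M n).map y).prod * y (.st (false, q, z0 M)) =
      y (.st (false, q, M.res n)) * ((bw M n).map y).prod := by
  simp only [aw, bw, List.map_append, List.prod_append, replicate_a, replicate_b]
  rw [mul_assoc, left M y h, ← mul_assoc, left M y h, mul_assoc]
  congr 3
  simp only [z0, Prod.mk.injEq, true_and]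
  funext j
  cases j
  · simp [Sys.res, z0]
  · simp [Sys.res, z0]

theorem right (q : Q) (r : Bool → Fin M.B) (j : Bool) (m : ℕ) :
    y (.st (true, q, r)) * y (.b j) ^ (M.B * m) =
      y (.a j) ^ (M.a q r j * m) * y (.st (true, q, r)) := by
  induction m with
  | zero => simp
  | succ m ih =>
    have h1 := h (.right q r j)
    simp only [rel, List.map_cons, List.map_append, List.map_nil, List.prod_append,
      List.prod_cons, List.prod_nil, mul_one, Option.elim_some, replicate_a, replicate_b] at h1
    rw [mul_add, mul_one, pow_add, ← mul_assoc, ih, mul_assoc, h1, ← mul_assoc, ← pow_add,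
      mul_add, mul_one]

theorem rightW (q : Q) (n : Bool → ℕ) :
    y (.st (true, q, M.res n)) * (((bw M n).map y).prod * y .R) =
      ((aw M fun j => M.a q (M.res n) j * (n j / M.B)).map y).prod *
        (y (.st (true, q, M.res n)) *
        (((bw M (fun j => (M.res n j : ℕ))).map y).prod * y .R)) := by
  simp only [aw, bw, List.map_append, List.prod_append, replicate_a, replicate_b]
  have e : ∀ j, n j = M.B * (n j / M.B) + (M.res n j : ℕ) := fun j => (Nat.div_add_mod _ _).symm
  have c1 : y (.b false) ^ (M.res n false : ℕ) * y (.b true) ^ (M.B * (n true / M.B)) =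
      y (.b true) ^ (M.B * (n true / M.B)) * y (.b false) ^ (M.res n false : ℕ) :=
    ((commB M y h).pow_pow _ _).eq
  have f1 : y (.b false) ^ n false = y (.b false) ^ (M.B * (n false / M.B)) *
      y (.b false) ^ (M.res n false : ℕ) := by
    rw [← pow_add, ← e]
  have t1 : y (.b true) ^ n true = y (.b true) ^ (M.B * (n true / M.B)) *
      y (.b true) ^ (M.res n true : ℕ) := by
    rw [← pow_add, ← e]
  calc y (.st (true, q, M.res n)) * (y (.b false) ^ n false * y (.b true) ^ n true * y .R)
      = y (.st (true, q, M.res n)) * y (.b false) ^ (M.B * (n false / M.B)) *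
        (y (.b false) ^ (M.res n false : ℕ) * y (.b true) ^ (M.B * (n true / M.B))) *
        (y (.b true) ^ (M.res n true : ℕ) * y .R) := by
        rw [f1, t1]; simp only [mul_assoc]
    _ = y (.a false) ^ (M.a q (M.res n) false * (n false / M.B)) *
        (y (.st (true, q, M.res n)) * y (.b true) ^ (M.B * (n true / M.B))) *
        (y (.b false) ^ (M.res n false : ℕ) * (y (.b true) ^ (M.res n true : ℕ) * y .R)) := by
        rw [c1, right M y h]; simp only [mul_assoc]
    _ = _ := by
        rw [right M y h]; simp only [mul_assoc]

theorem aw_mul (n n' : Bool → ℕ) : ((aw M n).map y).prod * ((aw M n').map y).prod =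
    ((aw M fun j => n j + n' j).map y).prod := by
  simp only [aw, List.map_append, List.prod_append, replicate_a]
  have c : y (.a true) ^ n true * y (.a false) ^ n' false =
      y (.a false) ^ n' false * y (.a true) ^ n true :=
    ((commA M y h).symm.pow_pow _ _).eq
  calc y (.a false) ^ n false * y (.a true) ^ n true *
        (y (.a false) ^ n' false * y (.a true) ^ n' true)
      = y (.a false) ^ n false * (y (.a true) ^ n true * y (.a false) ^ n' false) *
          y (.a true) ^ n' true := by simp only [mul_assoc]
    _ = _ := by rw [c, pow_add, pow_add]; simp only [mul_assoc]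

/-- the word of a configuration is equal to the word of the next configuration -/
theorem step (q : Q) (n : Bool → ℕ) : ((cw M q n).map y).prod =
    (M.nxt q (M.res n)).elim 0 fun q' => ((cw M q' (M.nn q n)).map y).prod := by
  have h1 := h (.turn q (M.res n))
  simp only [rel, List.map_cons, List.map_nil, List.prod_cons, List.prod_nil, mul_one,
    Option.elim_some] at h1
  have h2 := h (.back q (M.res n))
  simp only [rel, List.map_cons, List.map_append, List.map_nil, List.prod_append,
    List.prod_cons, List.prod_nil, mul_one] at h2
  have h3 : ((cw M q n).map y).prod = y .L *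
      (((aw M fun j => M.a q (M.res n) j * (n j / M.B)).map y).prod *
        (y (.st (true, q, M.res n)) *
        (((bw M (fun j => (M.res n j : ℕ))).map y).prod * y .R))) := by
    rw [← rightW M y h]
    simp only [cw, List.map_cons, List.map_append, List.map_nil, List.prod_append,
      List.prod_cons, List.prod_nil, mul_one]
    calc y .L * (((aw M n).map y).prod * (y (.st (false, q, z0 M)) * y .R))
        = y .L * ((((aw M n).map y).prod * y (.st (false, q, z0 M))) * y .R) := by
          simp only [mul_assoc]
      _ = (y .L * y (.st (false, q, M.res n))) * (((bw M n).map y).prod * y .R) := by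
          rw [leftW M y h]; simp only [mul_assoc]
      _ = _ := by rw [h1]; simp only [mul_assoc]
  rw [h3, h2]
  cases hq : M.nxt q (M.res n) with
  | none => simp
  | some q' =>
    simp only [Option.map_some, Option.elim_some, List.map_append, List.map_cons, List.map_nil,
      List.prod_append, List.prod_cons, List.prod_nil, mul_one, cw]
    rw [← mul_assoc (List.prod _) (List.prod _), aw_mul M y h]
    rfl

theorem halts_zero (o : Option Q) (n : Bool → ℕ) (ho : M.Halts o n) :
    o.elim 0 (fun q => ((cw M q n).map y).prod) = 0 := by
  induction ho with
  | stop n => rfl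
  | step q n _ ih =>
    rw [Option.elim_some, step M y h]
    exact ih

end halt

/-! ### The operators of a machine -/

section ops

variable (F : Type u) [Field F]

open Classical in
/-- `0` if the machine halts and `1` otherwise -/
noncomputable def hv (o : Option Q) (n : Bool → ℕ) : F := if M.Halts o n then 0 else 1

theorem hv_none (n : Bool → ℕ) : hv M F none n = 0 := if_pos (.stop n)

theorem hv_step (q : Q) (n : Bool → ℕ) :
    hv M F (some q) n = hv M F (M.nxt q (M.res n)) (M.nn q n) := by
  classical
  unfold hv
  have : M.Halts (some q) n ↔ M.Halts (M.nxt q (M.res n)) (M.nn q n) :=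
    ⟨fun h => by cases h; assumption, fun h => .step q n h⟩
  exact if_congr this rfl rfl

open Classical in
/-- the value of a state -/
noncomputable def nu : KM M → (Bool → ℕ) → (Bool → ℕ) → F
  | (false, q, r), i, i' =>
    if ∀ j, (i j + i' j) % M.B = (r j + i j) % M.B then hv M F (some q) (i + i') else 0
  | (true, q, r), i, i' =>
    if ∀ j, i' j % M.B = r j then
      hv M F (M.nxt q r) fun j => i j + (M.a q r j * (i' j / M.B) + M.b q r j) else 0

variable {K : Type}

theorem readA_a (i : Bool → ℕ) (j : Bool) (m : ℕ) :
    readW (.A i : St K) (List.replicate m (.a j)) = .A (i + Pi.single j m) := by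
  induction m generalizing i with
  | zero => simp
  | succ m ih =>
    rw [List.replicate_succ, readW_cons]
    show readW (.A (i + Pi.single j 1)) _ = _
    rw [ih, add_assoc, ← Pi.single_add, add_comm 1 m]

theorem readB_b (k : K) (i i' : Bool → ℕ) (j : Bool) (m : ℕ) :
    readW (.B k i i' : St K) (List.replicate m (.b j)) = .B k i (i' + Pi.single j m) := by
  induction m generalizing i' with
  | zero => simp
  | succ m ih =>
    rw [List.replicate_succ, readW_cons]
    show readW (.B k i (i' + Pi.single j 1)) _ = _
    rw [ih, add_assoc, ← Pi.single_add, add_comm 1 m]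

theorem pair_eq (n : Bool → ℕ) : (Pi.single false (n false) + Pi.single true (n true)) = n := by
  funext j; cases j <;> simp

theorem readA_aw (i n : Bool → ℕ) : readW (.A i) (aw M n) = .A (i + n) := by
  rw [aw, readW_append, readA_a, readA_a, add_assoc, pair_eq]

theorem readB_bw (k : KM M) (i i' n : Bool → ℕ) :
    readW (.B k i i') (bw M n) = .B k i (i' + n) := by
  rw [bw, readW_append, readB_b, readB_b, add_assoc, pair_eq]

/-- not a state `A i` -/
def NotA : St K → Prop
  | .A _ => False
  | _ => True

theorem read_notA {σ : St K} (h : NotA σ) (j : Bool) : read σ (.a j) = .dead := by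
  cases σ <;> first | exact h.elim | rfl

theorem readW_notA {σ : St K} (h : NotA σ) (j : Bool) (m : ℕ) :
    NotA (readW σ (List.replicate m (.a j))) := by
  cases m with
  | zero => exact h
  | succ m => rw [List.replicate_succ, readW_cons, read_notA h, readW_dead]; trivial

theorem read_st_notA {σ : St K} (h : NotA σ) (k : K) : read σ (.st k) = .dead := by
  cases σ <;> first | exact h.elim | rfl

theorem beh_rel (ρ : RI M) : opW (nu M F) (rel M ρ).1 =
    (rel M ρ).2.elim 0 fun w => opW (nu M F) w := by
  classical
  cases ρ with
  | commA =>
    refine opW_eq _ fun σ => ?_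
    cases σ with
    | A i =>
      show Beh _ (.A (i + Pi.single false 1 + Pi.single true 1))
        (.A (i + Pi.single true 1 + Pi.single false 1))
      rw [add_right_comm]
      exact .refl _
    | _ => exact .refl _
  | commB =>
    refine opW_eq _ fun σ => ?_
    cases σ with
    | B k i i' =>
      show Beh _ (.B k i (i' + Pi.single false 1 + Pi.single true 1))
        (.B k i (i' + Pi.single true 1 + Pi.single false 1))
      rw [add_right_comm]
      exact .refl _
    | _ => exact .refl _
  | left q r j =>
    refine opW_eq _ fun σ => ?_
    cases σ with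
    | A i =>
      refine .B (i := i + Pi.single j 1) (i' := 0) (i2 := i) (i2' := 0 + Pi.single j 1)
        fun m => ?_
      simp only [nu, zero_add]
      have e1 : i + Pi.single j 1 + m = i + (Pi.single j 1 + m) := add_assoc _ _ _
      rw [e1]
      congr 1
      rw [eq_iff_iff]
      refine forall_congr' fun l => ?_
      simp only [Pi.add_apply, bump]
      by_cases hl : l = j
      · subst hl
        simp only [Pi.single_eq_same, Function.update_self, Nat.mod_add_mod]
        rw [show i l + 1 + m l = i l + (1 + m l) by ring,
          show (r l : ℕ) + (i l + 1) = (r l : ℕ) + 1 + i l by ring]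
      · simp only [Pi.single_eq_of_ne hl, Function.update_of_ne hl, add_zero, zero_add]
    | _ => exact .refl _
  | turn q r =>
    refine opW_eq _ fun σ => ?_
    cases σ with
    | init =>
      refine .B (i := 0) (i' := 0) (i2 := 0) (i2' := 0) fun m => ?_
      simp only [nu, zero_add, Pi.zero_apply, add_zero]
      have e : ∀ j, (r j : ℕ) % M.B = r j := fun j => Nat.mod_eq_of_lt (r j).2
      simp only [e]
      by_cases hm : ∀ j, m j % M.B = r j
      · rw [if_pos hm, if_pos hm, hv_step]
        have : M.res m = r := funext fun j => Fin.ext (hm j)
        rw [this]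
        congr 1
        funext j
        simp only [Sys.nn, this]
      · rw [if_neg hm, if_neg hm]
    | _ => exact .refl _
  | right q r j =>
    refine opW_eq _ fun σ => ?_
    by_cases hσ : NotA σ
    · rw [rel]
      simp only [readW_cons, readW_append, readW_nil]
      rw [read_st_notA hσ, read_st_notA (readW_notA hσ _ _), readW_dead]
      exact .refl _
    · cases σ with
      | A i =>
        simp only [readW_cons, readW_append, readW_nil]
        rw [readA_a]
        show Beh _ (readW (.B (true, q, r) i 0) _) (.B (true, q, r) (i + Pi.single j _) 0)
        rw [readB_b]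
        refine .B fun m => ?_
        simp only [nu, zero_add]
        have hB := M.hB
        have e1 : ∀ l, (Pi.single j M.B + m : Bool → ℕ) l % M.B = m l % M.B := by
          intro l
          by_cases hl : l = j
          · subst hl
            simp
          · simp [Pi.single_eq_of_ne hl]
        simp only [e1]
        congr 2
        funext l
        by_cases hl : l = j
        · subst hl
          simp only [Pi.add_apply, Pi.single_eq_same]
          rw [Nat.add_div_left _ hB]
          ring
        · simp [Pi.single_eq_of_ne hl]
      | _ => exact (hσ trivial).elim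
  | back q r =>
    cases hq : M.nxt q r with
    | none =>
      simp only [rel, hq, Option.map_none, Option.elim_none]
      ext f σ
      rw [opW_apply]
      by_cases hσ : NotA σ
      · rw [readW_cons, read_st_notA hσ, readW_dead]
        exact f.2.1
      · cases σ with
        | A i =>
          simp only [readW_cons, readW_append, readW_nil]
          show f.1 (read (readW (.B (true, q, r) i 0) (bw M _)) .R) = 0
          rw [readB_bw]
          show f.1 (.fin (true, q, r) i _) = 0
          rw [← f.2.1]
          refine f.2.2 _ _ (.fin0 ?_)
          have e : ∀ j, (r j : ℕ) % M.B = r j := fun j => Nat.mod_eq_of_lt (r j).2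
          simp only [nu, zero_add, e, hq, implies_true, if_true, hv_none]
        | _ => exact (hσ trivial).elim
    | some q' =>
      simp only [rel, hq, Option.map_some, Option.elim_some]
      refine opW_eq _ fun σ => ?_
      by_cases hσ : NotA σ
      · simp only [readW_cons, readW_append, readW_nil]
        rw [read_st_notA hσ, aw, readW_append,
          read_st_notA (readW_notA (readW_notA hσ _ _) _ _), readW_dead]
        exact .refl _
      · cases σ with
        | A i =>
          simp only [readW_cons, readW_append, readW_nil]
          rw [readA_aw]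
          show Beh _ (read (readW (.B (true, q, r) i 0) (bw M _)) .R)
            (.fin (false, q', z0 M) (i + M.b q r) 0)
          rw [readB_bw]
          refine .fin ?_
          have e : ∀ j, (r j : ℕ) % M.B = r j := fun j => Nat.mod_eq_of_lt (r j).2
          have e' : ∀ j, (r j : ℕ) / M.B = 0 := fun j => Nat.div_eq_of_lt (r j).2
          simp only [nu, zero_add, e, e', hq, implies_true, if_true, mul_zero, z0, add_zero,
            Pi.zero_apply]
          rfl
        | _ => exact (hσ trivial).elim

end ops

end Pool.Agent.K6.H80.EQ
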