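import Pool.Agent.K6.H80.EQ.Model

set_option autoImplicit false

/-!
# The algebra of the automaton satisfies the standard identity of degree six
-/

namespace Pool.Agent.K6.H80.EQ

universe u v

section

variable {K : Type}

/-- words in the letters `a` -/
def PureA (w : List (Gen K)) : Prop := ∀ g ∈ w, ∃ j, g = .a j
/-- words in the letters `b` -/
def PureB (w : List (Gen K)) : Prop := ∀ g ∈ w, ∃ j, g = .b j

/-- number of letters `a j` -/
def cntA : List (Gen K) → (Bool → ℕ)
  | [] => 0
  | .a j :: w => Pi.single j 1 + cntA w
  | _ :: w => cntA w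

/-- number of letters `b j` -/
def cntB : List (Gen K) → (Bool → ℕ)
  | [] => 0
  | .b j :: w => Pi.single j 1 + cntB w
  | _ :: w => cntB w

theorem readA_pure {w : List (Gen K)} (h : PureA w) (i : Bool → ℕ) :
    readW (.A i) w = .A (i + cntA w) := by
  induction w generalizing i with
  | nil => simp [cntA]
  | cons g w ih =>
    obtain ⟨j, rfl⟩ := h g List.mem_cons_self
    rw [readW_cons]
    show readW (.A (i + Pi.single j 1)) w = _
    rw [ih fun g hg => h g (List.mem_cons_of_mem _ hg), cntA, add_assoc]

theorem readB_pure {w : List (Gen K)} (h : PureB w) (k : K) (i i' : Bool → ℕ) :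
    readW (.B k i i') w = .B k i (i' + cntB w) := by
  induction w generalizing i' with
  | nil => simp [cntB]
  | cons g w ih =>
    obtain ⟨j, rfl⟩ := h g List.mem_cons_self
    rw [readW_cons]
    show readW (.B k i (i' + Pi.single j 1)) w = _
    rw [ih fun g hg => h g (List.mem_cons_of_mem _ hg), cntB, add_assoc]

/-- the ranks of the states -/
def rk : St K → ℕ
  | .init => 0
  | .A _ => 1
  | .B _ _ _ => 2
  | .fin _ _ _ => 3
  | .dead => 4

theorem rk_le (σ : St K) : rk σ ≤ 4 := by cases σ <;> simp [rk]

theorem eq_dead {σ : St K} (h : 4 ≤ rk σ) : σ = .dead := by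
  cases σ <;> first | rfl | (simp [rk] at h)

theorem rk_read (σ : St K) (g : Gen K) : rk σ ≤ rk (read σ g) := by
  cases σ <;> cases g <;> simp [rk, read]

theorem rk_readW (σ : St K) (w : List (Gen K)) : rk σ ≤ rk (readW σ w) := by
  induction w generalizing σ with
  | nil => exact le_rfl
  | cons g w ih => exact (rk_read σ g).trans (ih _)

/-- reading a word which is not pure raises the rank -/
theorem rk_lt (σ : St K) {w : List (Gen K)} (h0 : w ≠ []) (ha : ¬ PureA w) (hb : ¬ PureB w) :
    min 4 (rk σ + 1) ≤ rk (readW σ w) := by
  cases σ with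
  | dead => simp [rk]
  | init =>
    cases w with
    | nil => exact (h0 rfl).elim
    | cons g w =>
      refine le_trans ?_ (rk_readW (read .init g) w)
      cases g <;> simp [read, rk]
  | fin k i i' =>
    cases w with
    | nil => exact (h0 rfl).elim
    | cons g w =>
      rw [readW_cons, show read (.fin k i i') g = .dead by cases g <;> rfl, readW_dead]
      simp [rk]
  | A i =>
    clear h0 hb
    simp only [rk]
    induction w generalizing i with
    | nil => exact (ha fun g hg => by simp at hg).elim
    | cons g w ih =>
      cases g with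
      | a j =>
        refine ih (fun hw => ha fun g hg => ?_) (i + Pi.single j 1)
        rcases List.mem_cons.1 hg with rfl | hg
        · exact ⟨j, rfl⟩
        · exact hw g hg
      | st k => exact le_trans (by simp [rk]) (rk_readW (.B k i 0) w)
      | _ => exact le_trans (by simp [rk]) (rk_readW (.dead) w)
  | B k i i' =>
    clear h0 ha
    simp only [rk]
    induction w generalizing i' with
    | nil => exact (hb fun g hg => by simp at hg).elim
    | cons g w ih =>
      cases g with
      | b j =>
        refine ih (fun hw => hb fun g hg => ?_) (i' + Pi.single j 1)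
        rcases List.mem_cons.1 hg with rfl | hg
        · exact ⟨j, rfl⟩
        · exact hw g hg
      | R => exact le_trans (by simp [rk]) (rk_readW (.fin k i i') w)
      | _ => exact le_trans (by simp [rk]) (rk_readW (.dead) w)

theorem pureA_dead {σ : St K} (hσ : ∀ i, σ ≠ .A i) {w : List (Gen K)} (h0 : w ≠ [])
    (ha : PureA w) : readW σ w = .dead := by
  cases w with
  | nil => exact (h0 rfl).elim
  | cons g w =>
    obtain ⟨j, rfl⟩ := ha g List.mem_cons_self
    rw [readW_cons]
    cases σ with
    | A i => exact (hσ i rfl).elim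
    | _ => exact readW_dead w

theorem pureB_dead {σ : St K} (hσ : ∀ k i i', σ ≠ .B k i i') {w : List (Gen K)} (h0 : w ≠ [])
    (hb : PureB w) : readW σ w = .dead := by
  cases w with
  | nil => exact (h0 rfl).elim
  | cons g w =>
    obtain ⟨j, rfl⟩ := hb g List.mem_cons_self
    rw [readW_cons]
    cases σ with
    | B k i i' => exact (hσ k i i' rfl).elim
    | _ => exact readW_dead w

/-- a word read at `A i` either is pure or leads to another state -/
theorem readA_cases (z : List (Gen K)) :
    PureA z ∨ ∀ i1 i', readW (.A i1) z ≠ .A i' := by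
  by_cases hz : PureA z
  · exact Or.inl hz
  · refine Or.inr fun i1 i' h => ?_
    induction z generalizing i1 with
    | nil => exact hz fun g hg => by simp at hg
    | cons g z ih =>
      cases g with
      | a j =>
        refine ih (fun hw => hz fun g hg => ?_) (i1 + Pi.single j 1) h
        rcases List.mem_cons.1 hg with rfl | hg
        · exact ⟨j, rfl⟩
        · exact hw g hg
      | st k =>
        have := rk_readW (.B k i1 0) z
        rw [readW_cons] at h
        change readW (.B k i1 0) z = _ at h
        rw [h] at this
        simp [rk] at this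
      | _ =>
        have := rk_readW (.dead) z
        rw [readW_cons] at h
        change readW (.dead) z = _ at h
        rw [h] at this
        simp [rk] at this

theorem readB_cases (z : List (Gen K)) :
    PureB z ∨ ∀ k i i1 k' i' i1', readW (.B k i i1) z ≠ .B k' i' i1' := by
  by_cases hz : PureB z
  · exact Or.inl hz
  · refine Or.inr fun k i i1 k' i' i1' h => ?_
    induction z generalizing i1 with
    | nil => exact hz fun g hg => by simp at hg
    | cons g z ih =>
      cases g with
      | b j =>
        refine ih (fun hw => hz fun g hg => ?_) (i1 + Pi.single j 1) h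
        rcases List.mem_cons.1 hg with rfl | hg
        · exact ⟨j, rfl⟩
        · exact hw g hg
      | R =>
        have := rk_readW (.fin k i i1) z
        rw [readW_cons] at h
        change readW (.fin k i i1) z = _ at h
        rw [h] at this
        simp [rk] at this
      | _ =>
        have := rk_readW (.dead) z
        rw [readW_cons] at h
        change readW (.dead) z = _ at h
        rw [h] at this
        simp [rk] at this

theorem swapA {u v : List (Gen K)} (hu : PureA u) (hv : PureA v) (hu0 : u ≠ []) (hv0 : v ≠ [])
    (z : List (Gen K)) (σ : St K) :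
    readW σ (u ++ (z ++ v)) = readW σ (v ++ (z ++ u)) := by
  simp only [readW_append]
  by_cases hσ : ∀ i, σ ≠ .A i
  · rw [pureA_dead hσ hu0 hu, pureA_dead hσ hv0 hv]
    simp
  · simp only [not_forall, ne_eq, not_not] at hσ
    obtain ⟨i, rfl⟩ := hσ
    rw [readA_pure hu, readA_pure hv]
    rcases readA_cases z with hz | hz
    · rw [readA_pure hz, readA_pure hz, readA_pure hu, readA_pure hv]
      congr 1
      abel
    · rw [pureA_dead (hz _) hv0 hv, pureA_dead (hz _) hu0 hu]

theorem swapB {u v : List (Gen K)} (hu : PureB u) (hv : PureB v) (hu0 : u ≠ []) (hv0 : v ≠ [])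
    (z : List (Gen K)) (σ : St K) :
    readW σ (u ++ (z ++ v)) = readW σ (v ++ (z ++ u)) := by
  simp only [readW_append]
  by_cases hσ : ∀ k i i', σ ≠ .B k i i'
  · rw [pureB_dead hσ hu0 hu, pureB_dead hσ hv0 hv]
    simp
  · simp only [not_forall, ne_eq, not_not] at hσ
    obtain ⟨k, i, i', rfl⟩ := hσ
    rw [readB_pure hu, readB_pure hv]
    rcases readB_cases z with hz | hz
    · rw [readB_pure hz, readB_pure hz, readB_pure hu, readB_pure hv]
      congr 1
      abel
    · rw [pureB_dead (fun k' => hz _ _ _ k') hv0 hv, pureB_dead (fun k' => hz _ _ _ k') hu0 hu]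

end

/-! ### Products in a monoid -/

theorem prod_swap {R : Type u} {ι : Type v} [Monoid R] [DecidableEq ι] (y : ι → R) (i j : ι)
    (h : ∀ l : List ι, y i * ((l.map y).prod * y j) = y j * ((l.map y).prod * y i))
    (l : List ι) (hl : l.Nodup) (hi : i ∈ l) (hj : j ∈ l) :
    (l.map y).prod = (l.map fun k => y (Equiv.swap i j k)).prod := by
  by_cases hij : i = j
  · subst hij; simp
  have key : ∀ i j : ι, i ≠ j →
      (∀ l : List ι, y i * ((l.map y).prod * y j) = y j * ((l.map y).prod * y i)) →
      ∀ l1 l2 l3 : List ι, (l1 ++ i :: (l2 ++ j :: l3)).Nodup →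
      ((l1 ++ i :: (l2 ++ j :: l3)).map y).prod =
        ((l1 ++ i :: (l2 ++ j :: l3)).map fun k => y (Equiv.swap i j k)).prod := by
    intro i j hij h l1 l2 l3 hn
    have hn' := hn
    simp only [List.nodup_append, List.nodup_cons, List.mem_append, List.mem_cons,
      not_or] at hn'
    have e : ∀ l : List ι, i ∉ l → j ∉ l → (l.map fun k => y (Equiv.swap i j k)) = l.map y := by
      intro l hi hj
      refine List.map_congr_left fun k hk => ?_
      rw [Equiv.swap_apply_of_ne_of_ne]
      · rintro rfl; exact hi hk
      · rintro rfl; exact hj hk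
    have n1 : i ∉ l1 := fun hk => (hn'.2.2 i hk i (Or.inl rfl)) rfl
    have n2 : j ∉ l1 := fun hk => (hn'.2.2 j hk j (Or.inr (Or.inr (Or.inl rfl)))) rfl
    have n3 : i ∉ l2 := hn'.2.1.1.1
    have n4 : j ∉ l2 := fun hk => (hn'.2.1.2.2.2 j hk j (Or.inl rfl)) rfl
    have n5 : i ∉ l3 := hn'.2.1.1.2.2
    have n6 : j ∉ l3 := hn'.2.1.2.2.1.1
    simp only [List.map_append, List.map_cons, List.prod_append, List.prod_cons,
      Equiv.swap_apply_left, Equiv.swap_apply_right]
    rw [e l1 n1 n2, e l2 n3 n4, e l3 n5 n6]
    have := h l2
    simp only [← mul_assoc] at this ⊢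
    simp only [mul_assoc] at this ⊢
    rw [← mul_assoc (y i), ← mul_assoc (y i * _), ← mul_assoc (y j), ← mul_assoc (y j * _),
      mul_assoc (y i), mul_assoc (y j), this]
  obtain ⟨l1, l', rfl⟩ := List.append_of_mem hi
  rcases List.mem_append.1 hj with hj1 | hj1
  · obtain ⟨l2, l3, rfl⟩ := List.append_of_mem hj1
    have := key j i (Ne.symm hij) (fun l => (h l).symm) l2 l3 l' (by simpa using hl)
    rw [Equiv.swap_comm] at this
    simpa using this
  · rcases List.mem_cons.1 hj1 with rfl | hj1
    · exact (hij rfl).elim
    · obtain ⟨l2, l3, rfl⟩ := List.append_of_mem hj1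
      exact key i j hij h l1 l2 l3 hl

/-! ### The standard identity -/

theorem multi_zero {F : Type u} [Field F] {n : ℕ} {E E' : Type v} [AddCommGroup E] [Module F E]
    [AddCommGroup E'] [Module F E'] (m : MultilinearMap F (fun _ : Fin n => E) E') (W : Set E)
    (h : ∀ x : Fin n → E, (∀ i, x i ∈ W) → m x = 0) (x : Fin n → E)
    (hx : ∀ i, x i ∈ Submodule.span F W) : m x = 0 := by
  classical
  have key : ∀ s : Finset (Fin n), ∀ x : Fin n → E, (∀ i ∈ s, x i ∈ Submodule.span F W) →
      (∀ i, i ∉ s → x i ∈ W) → m x = 0 := by
    intro s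
    induction s using Finset.induction_on with
    | empty => exact fun x _ hx => h x fun i => hx i (Finset.notMem_empty i)
    | insert a s ha ih =>
      intro x h1 h2
      have h3 : ∀ z ∈ Submodule.span F W, m (Function.update x a z) = 0 := by
        intro z hz
        refine Submodule.span_induction (p := fun z _ => m (Function.update x a z) = 0)
          ?_ ?_ ?_ ?_ hz
        · intro z hz
          refine ih _ (fun i hi => ?_) fun i hi => ?_
          · rw [Function.update_of_ne (by rintro rfl; exact ha hi)]
            exact h1 i (Finset.mem_insert_of_mem hi)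
          · by_cases hia : i = a
            · subst hia; rw [Function.update_self]; exact hz
            · rw [Function.update_of_ne hia]
              exact h2 i fun hi' => (Finset.mem_insert.1 hi').elim hia hi
        · exact m.map_update_zero x a
        · intro y z _ _ hy hz
          rw [m.map_update_add, hy, hz, add_zero]
        · intro c y _ hy
          rw [m.map_update_smul, hy, smul_zero]
      have := h3 (x a) (h1 a (Finset.mem_insert_self _ _))
      rwa [Function.update_eq_self] at this
  exact key Finset.univ x (fun i _ => hx i) fun i hi => (hi (Finset.mem_univ i)).elim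

theorem alt_zero {n : ℕ} {R : Type u} [Ring R] (y : Fin n → R) (i j : Fin n) (hij : i ≠ j)
    (h : ∀ l : List (Fin n), y i * ((l.map y).prod * y j) = y j * ((l.map y).prod * y i)) :
    ∑ σ : Equiv.Perm (Fin n), (Equiv.Perm.sign σ : ℤ) • (List.ofFn fun k => y (σ k)).prod = 0 := by
  classical
  have e : ∀ σ : Equiv.Perm (Fin n), (List.ofFn fun k => y (σ k)).prod =
      (List.ofFn fun k => y ((Equiv.swap i j * σ) k)).prod := by
    intro σ
    have h1 := prod_swap y i j h (List.ofFn σ) (List.nodup_ofFn.2 σ.injective)
      (by rw [List.mem_ofFn]; exact σ.surjective i) (by rw [List.mem_ofFn]; exact σ.surjective j)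
    rw [List.map_ofFn, List.map_ofFn] at h1
    exact h1
  refine Finset.sum_involution (fun σ _ => Equiv.swap i j * σ) ?_ ?_ ?_ ?_
  · intro σ _
    rw [← e, ← add_smul, Equiv.Perm.sign_mul, Equiv.Perm.sign_swap hij]
    simp
  · intro σ _ _ hσ
    have := congrFun (congrArg DFunLike.coe hσ) (σ.symm i)
    simp only [Equiv.Perm.coe_mul, Function.comp_apply, Equiv.apply_symm_apply,
      Equiv.swap_apply_left] at this
    exact hij this.symm
  · intro σ _; exact Finset.mem_univ _
  · intro σ _
    simp

variable {F : Type u} [Field F] {K : Type} (ν : K → (Bool → ℕ) → (Bool → ℕ) → F)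

open Classical in
theorem rk_flatten (σ : St K) (ls : List (List (Gen K))) (h0 : ∀ l ∈ ls, l ≠ []) :
    min 4 (rk σ + ls.countP fun w => decide (¬ PureA w ∧ ¬ PureB w)) ≤
      rk (readW σ ls.flatten) := by
  induction ls generalizing σ with
  | nil => simp
  | cons w ls ih =>
    rw [List.flatten_cons, readW_append, List.countP_cons]
    have h1 := ih (readW σ w) fun l hl => h0 l (List.mem_cons_of_mem _ hl)
    have h2 := rk_readW σ w
    by_cases h : ¬ PureA w ∧ ¬ PureB w
    · have h3 := rk_lt σ (h0 w List.mem_cons_self) h.1 h.2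
      simp only [h, not_false_eq_true, and_self, decide_true, if_true]
      omega
    · simp only [h, decide_false, Bool.false_eq_true, if_false]
      omega

theorem opW_flatten (ls : List (List (Gen K))) : opW ν ls.flatten = (ls.map (opW ν)).prod := by
  induction ls with
  | nil => rfl
  | cons w ls ih => rw [List.flatten_cons, opW_append, ih, List.map_cons, List.prod_cons]

theorem std_words {n : ℕ} (hn : 6 ≤ n) (w : Fin n → List (Gen K)) (hw : ∀ i, w i ≠ []) :
    ∑ σ : Equiv.Perm (Fin n), (Equiv.Perm.sign σ : ℤ) •
      (List.ofFn fun k => opW ν (w (σ k))).prod = 0 := by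
  classical
  by_cases hA : ∃ i j, i ≠ j ∧ PureA (w i) ∧ PureA (w j)
  · obtain ⟨i, j, hij, hi, hj⟩ := hA
    refine alt_zero (fun k => opW ν (w k)) i j hij fun l => ?_
    have e : (l.map fun k => opW ν (w k)).prod = opW ν (l.map w).flatten := by
      rw [opW_flatten, List.map_map]; rfl
    rw [e, ← opW_append, ← opW_append, ← opW_append, ← opW_append]
    refine opW_eq ν fun σ => ?_
    rw [swapA hi hj (hw i) (hw j)]
    exact .refl _
  by_cases hB : ∃ i j, i ≠ j ∧ PureB (w i) ∧ PureB (w j)
  · obtain ⟨i, j, hij, hi, hj⟩ := hB
    refine alt_zero (fun k => opW ν (w k)) i j hij fun l => ?_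
    have e : (l.map fun k => opW ν (w k)).prod = opW ν (l.map w).flatten := by
      rw [opW_flatten, List.map_map]; rfl
    rw [e, ← opW_append, ← opW_append, ← opW_append, ← opW_append]
    refine opW_eq ν fun σ => ?_
    rw [swapB hi hj (hw i) (hw j)]
    exact .refl _
  have hcount : 4 ≤ (List.ofFn w).countP fun w => decide (¬ PureA w ∧ ¬ PureB w) := by
    have h1 : (Finset.univ.filter fun i => PureA (w i)).card ≤ 1 := by
      rw [Finset.card_le_one]
      intro i hi j hj
      by_contra hij
      exact hA ⟨i, j, hij, (Finset.mem_filter.1 hi).2, (Finset.mem_filter.1 hj).2⟩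
    have h2 : (Finset.univ.filter fun i => PureB (w i)).card ≤ 1 := by
      rw [Finset.card_le_one]
      intro i hi j hj
      by_contra hij
      exact hB ⟨i, j, hij, (Finset.mem_filter.1 hi).2, (Finset.mem_filter.1 hj).2⟩
    have h3 : (Finset.univ : Finset (Fin n)) ⊆ (Finset.univ.filter fun i => PureA (w i)) ∪
        (Finset.univ.filter fun i => PureB (w i)) ∪
        (Finset.univ.filter fun i => ¬ PureA (w i) ∧ ¬ PureB (w i)) := by
      intro i _
      simp only [Finset.mem_union, Finset.mem_filter, Finset.mem_univ, true_and]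
      tauto
    have h4 := Finset.card_le_card h3
    rw [Finset.card_univ, Fintype.card_fin] at h4
    have h5 := (Finset.card_union_le ((Finset.univ.filter fun i => PureA (w i)) ∪
        (Finset.univ.filter fun i => PureB (w i)))
        (Finset.univ.filter fun i => ¬ PureA (w i) ∧ ¬ PureB (w i)))
    have h6 := Finset.card_union_le (Finset.univ.filter fun i => PureA (w i))
        (Finset.univ.filter fun i => PureB (w i))
    have h7 : (List.ofFn w).countP (fun w => decide (¬ PureA w ∧ ¬ PureB w)) =
        (Finset.univ.filter fun i => ¬ PureA (w i) ∧ ¬ PureB (w i)).card := by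
      rw [List.ofFn_eq_map, List.countP_map, List.countP_eq_length_filter]
      rfl
    rw [h7]
    omega
  refine Finset.sum_eq_zero fun σ _ => ?_
  have e : (List.ofFn fun k => opW ν (w (σ k))).prod =
      opW ν (List.ofFn fun k => w (σ k)).flatten := by
    rw [opW_flatten, List.map_ofFn]; rfl
  rw [e, opW_eq_zero, smul_zero]
  intro τ
  refine eq_dead (le_trans ?_ (rk_flatten τ _ ?_))
  · have hp : (List.ofFn fun k => w (σ k)).countP (fun w => decide (¬ PureA w ∧ ¬ PureB w)) =
        (List.ofFn w).countP fun w => decide (¬ PureA w ∧ ¬ PureB w) :=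
      (σ.ofFn_comp_perm w).countP_eq _
    rw [hp]
    omega
  · intro l hl
    rw [List.mem_ofFn] at hl
    obtain ⟨k, rfl⟩ := hl
    exact hw _

theorem AA_span (x : AA ν) : x.1 ∈ Submodule.span F (opW ν '' {w | w ≠ []}) := by
  have h1 : x.1 ∈ (NonUnitalAlgebra.adjoin F (Set.range (op ν))).toSubmodule := x.2
  rw [NonUnitalAlgebra.adjoin_eq_span] at h1
  refine Submodule.span_mono ?_ h1
  intro y hy
  induction hy using Subsemigroup.closure_induction with
  | mem y hy =>
    obtain ⟨g, rfl⟩ := hy
    exact ⟨[g], by simp, by simp [opW]⟩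
  | mul y z _ _ hy hz =>
    obtain ⟨u, hu, rfl⟩ := hy
    obtain ⟨v, hv, rfl⟩ := hz
    exact ⟨u ++ v, fun h => hu (List.append_eq_nil_iff.1 h).1, opW_append ν u v⟩

theorem val_mulList (l : List (AA ν)) (hl : l ≠ []) :
    (mulList l).1 = (l.map Subtype.val).prod := by
  cases l with
  | nil => exact (hl rfl).elim
  | cons a l =>
    show (l.foldl (· * ·) a).1 = _
    clear hl
    induction l generalizing a with
    | nil => simp
    | cons b l ih =>
      rw [List.foldl_cons, ih]
      simp [mul_assoc]

/-- The algebra of the automaton satisfies the standard identities of degree at least six. -/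
theorem inS {n : ℕ} (hn : 6 ≤ n) : InS (AA ν) n := by
  intro x
  apply Subtype.ext
  have h1 : ∀ y : Fin n → Module.End F (Fn ν), (∀ i, y i ∈ Submodule.span F
      (opW ν '' {w | w ≠ []})) → ∑ σ : Equiv.Perm (Fin n), (Equiv.Perm.sign σ : ℤ) •
      (List.ofFn fun k => y (σ k)).prod = 0 := by
    intro y hy
    have h2 := multi_zero (F := F)
      (MultilinearMap.alternatization
        (MultilinearMap.mkPiAlgebraFin F n (Module.End F (Fn ν)))).toMultilinearMap
      (opW ν '' {w | w ≠ []}) ?_ y hy
    · rw [← h2]
      change _ = MultilinearMap.alternatization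
        (MultilinearMap.mkPiAlgebraFin F n (Module.End F (Fn ν))) y
      rw [MultilinearMap.alternatization_apply]
      refine Finset.sum_congr rfl fun σ _ => ?_
      rw [MultilinearMap.domDomCongr_apply, MultilinearMap.mkPiAlgebraFin_apply]
      rfl
    · intro y hy
      choose w hw1 hw2 using hy
      change MultilinearMap.alternatization
        (MultilinearMap.mkPiAlgebraFin F n (Module.End F (Fn ν))) y = 0
      rw [MultilinearMap.alternatization_apply, ← std_words ν hn w hw1]
      refine Finset.sum_congr rfl fun σ _ => ?_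
      rw [MultilinearMap.domDomCongr_apply, MultilinearMap.mkPiAlgebraFin_apply]
      simp only [hw2]
      rfl
  have h2 := h1 (fun i => (x i).1) fun i => AA_span ν (x i)
  rw [← valL_apply, map_sum]
  refine Eq.trans ?_ h2
  refine Finset.sum_congr rfl fun σ _ => ?_
  rw [map_zsmul, valL_apply, val_mulList, List.map_ofFn]
  · rfl
  · intro h
    have := congrArg List.length h
    simp at this
    omega

end Pool.Agent.K6.H80.EQ
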