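import Pool.Agent.K6.H80.EQ.Mach
import Pool.Agent.K6.H80.EQ.Std

set_option autoImplicit false

/-!
# The quasi-identities of a machine
-/

namespace Pool.Agent.K6.H80.EQ

open Pool.Agent.Helper948.Erode

universe u v

/-! ### Words as polynomials -/

section words

variable {X : Type} (code : X → ℕ)

/-- the monomial `c w` (`w` is a nonempty word) -/
def monW (c : ℤ) : List X → Mon
  | [] => ((0, 0), (0, []))
  | g :: w => ((c, 0), (code g, w.map code))

variable (F : Type u) [Field F] {A : Type v} [NonUnitalRing A] [Module F A]

theorem monVal_monW (c : ℤ) (x : ℕ → A) (w : List X) (hw : w ≠ []) :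
    monVal F x (monW code c w) = (c : F) • mulList (w.map fun g => x (code g)) := by
  cases w with
  | nil => exact (hw rfl).elim
  | cons g w =>
    simp only [monW, monVal, Nat.cast_zero, zero_add, div_one, List.map_map]
    rfl

end words

/-- the product of the values of a multiplicative map -/
theorem map_mulList {A : Type v} {R : Type u} [NonUnitalRing A] [Monoid R] (φ : A → R)
    (hφ : ∀ a b, φ (a * b) = φ a * φ b) (l : List A) (hl : l ≠ []) :
    φ (mulList l) = (l.map φ).prod := by
  cases l with
  | nil => exact (hl rfl).elim
  | cons a l =>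
    show φ (l.foldl (· * ·) a) = _
    clear hl
    induction l generalizing a with
    | nil => simp
    | cons b l ih =>
      rw [List.foldl_cons, ih]
      simp [mul_assoc, hφ]

section main

variable {Q : Type} (M : Sys Q Bool)

theorem rel_ne (ρ : RI M) : (rel M ρ).1 ≠ [] := by
  cases ρ <;> simp [rel]

theorem rel_ne' (ρ : RI M) (w : List (Gen (KM M))) (h : (rel M ρ).2 = some w) : w ≠ [] := by
  cases ρ with
  | back q r =>
    simp only [rel, Option.map_eq_some_iff] at h
    obtain ⟨q', _, rfl⟩ := h
    simp
  | _ =>
    simp only [rel, Option.some.injEq] at h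
    subst h
    simp

variable (code : Gen (KM M) → ℕ)

/-- the polynomial of a relation -/
def relP (ρ : RI M) : Poly :=
  match (rel M ρ).2 with
  | none => [monW code 1 (rel M ρ).1]
  | some w => [monW code 1 (rel M ρ).1, monW code (-1) w]

theorem relP_val (F : Type u) [Field F] {A : Type v} [NonUnitalRing A] [Module F A] (x : ℕ → A)
    (ρ : RI M) : polyVal F x (relP M code ρ) =
      mulList ((rel M ρ).1.map fun g => x (code g)) -
        (rel M ρ).2.elim 0 fun w => mulList (w.map fun g => x (code g)) := by
  unfold relP
  cases h : (rel M ρ).2 with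
  | none => simp [polyVal, monVal_monW code F 1 x _ (rel_ne M ρ)]
  | some w =>
    simp [polyVal, monVal_monW code F 1 x _ (rel_ne M ρ),
      monVal_monW code F (-1) x _ (rel_ne' M ρ w h), sub_eq_add_neg]

/-- the polynomial of a configuration -/
def cP (q : Q) (n : Bool → ℕ) : Poly := [monW code 1 (cw M q n)]

theorem cP_val (F : Type u) [Field F] {A : Type v} [NonUnitalRing A] [Module F A] (x : ℕ → A)
    (q : Q) (n : Bool → ℕ) : polyVal F x (cP M code q n) =
      mulList ((cw M q n).map fun g => x (code g)) := by
  simp [polyVal, cP, monVal_monW code F 1 x (cw M q n) (by simp [cw])]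

/-- If the machine halts then the quasi-identity holds in all algebras. -/
theorem holds_of_halts (F : Type u) [Field F] (A : Type u) [NonUnitalRing A] [Module F A]
    [IsScalarTower F A A] [SMulCommClass F A A] (U : List Poly) (hU : ∀ ρ, relP M code ρ ∈ U)
    (q : Q) (n : Bool → ℕ) (h : M.Halts (some q) n) : HoldsIn F A (U, cP M code q n) := by
  intro x hx
  have hx' : ∀ ρ, mulList ((rel M ρ).1.map fun g => x (code g)) =
      (rel M ρ).2.elim 0 fun w => mulList (w.map fun g => x (code g)) := by
    intro ρ
    have := hx _ (hU ρ)
    rw [relP_val] at this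
    exact sub_eq_zero.1 this
  have hmul : ∀ a b : A, ((a * b : A) : Unitization F A) = (a : Unitization F A) * b :=
    Unitization.inr_mul F
  have key := halts_zero M (fun g => ((x (code g) : A) : Unitization F A)) (fun ρ => by
    have h1 := congrArg (fun a : A => (a : Unitization F A)) (hx' ρ)
    rw [map_mulList (fun a : A => (a : Unitization F A)) hmul _
      (by simpa using rel_ne M ρ), List.map_map] at h1
    refine h1.trans ?_
    cases h2 : (rel M ρ).2 with
    | none => simp
    | some w =>
      rw [Option.elim_some, Option.elim_some,
        map_mulList (fun a : A => (a : Unitization F A)) hmul _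
          (by simpa using rel_ne' M ρ w h2), List.map_map]
      rfl) (some q) n h
  rw [Option.elim_some] at key
  rw [cP_val]
  apply Unitization.inr_injective (R := F)
  rw [map_mulList (fun a : A => (a : Unitization F A)) hmul _ (by simp [cw]), List.map_map,
    Unitization.inr_zero]
  exact key

/-- the algebra of the machine -/
noncomputable abbrev MA (F : Type u) [Field F] : NonUnitalSubalgebra F (Module.End F (Fn (nu M F))) :=
  AA (nu M F)

open Classical in
/-- the values of the variables -/
noncomputable def xv (F : Type u) [Field F] (i : ℕ) : MA M F :=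
  if h : ∃ g, code g = i then ⟨op (nu M F) h.choose,
    NonUnitalAlgebra.subset_adjoin F (Set.mem_range_self _)⟩ else 0

theorem xv_code (hc : Function.Injective code) (F : Type u) [Field F] (g : Gen (KM M)) :
    (xv M code F (code g)).1 = op (nu M F) g := by
  have h : ∃ g', code g' = code g := ⟨g, rfl⟩
  unfold xv
  rw [dif_pos h]
  show op (nu M F) h.choose = _
  rw [hc h.choose_spec]

theorem val_word (hc : Function.Injective code) (F : Type u) [Field F]
    (w : List (Gen (KM M))) (hw : w ≠ []) :
    (mulList (w.map fun g => xv M code F (code g))).1 = opW (nu M F) w := by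
  rw [val_mulList _ _ (by simpa using hw), List.map_map, opW]
  congr 1
  refine List.map_congr_left fun g _ => ?_
  exact xv_code M code hc F g

/-- If the machine does not halt then the quasi-identity does not hold in its algebra. -/
theorem not_holds (hc : Function.Injective code) (F : Type u) [Field F] (U : List Poly)
    (hU : ∀ p ∈ U, ∃ ρ, relP M code ρ = p) (q : Q) (n : Bool → ℕ) (h : ¬ M.Halts (some q) n) :
    ¬ HoldsIn F (MA M F) (U, cP M code q n) := by
  classical
  intro hh
  have h1 := hh (xv M code F) (by
    intro p hp
    obtain ⟨ρ, rfl⟩ := hU p hp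
    rw [relP_val, sub_eq_zero]
    apply Subtype.ext
    rw [val_word M code hc F _ (rel_ne M ρ), beh_rel M F ρ]
    cases h2 : (rel M ρ).2 with
    | none => rfl
    | some w => exact (val_word M code hc F w (rel_ne' M ρ w h2)).symm)
  rw [cP_val] at h1
  have h2 := congrArg Subtype.val h1
  rw [val_word M code hc F _ (by simp [cw])] at h2
  have h3 : (opW (nu M F) (cw M q n) (out (nu M F))).1 .init = 0 := by
    rw [h2]
    rfl
  rw [opW_apply, cw, readW_cons] at h3
  change outF (nu M F) (readW (.A 0) _) = 0 at h3
  rw [readW_append, readA_aw] at h3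
  change nu M F (false, q, z0 M) (0 + n) 0 = 0 at h3
  simp only [nu, zero_add, Pi.zero_apply, add_zero, z0, implies_true, if_true] at h3
  unfold hv at h3
  rw [if_neg h] at h3
  exact one_ne_zero h3

end main

/-! ### Undecidability -/

/-- a family of classes of algebras -/
theorem undecidable : ∃ U : List Poly, ∀ (F : Type u) [Field F]
    (H : QuasiId → Prop),
    (∀ q : QuasiId, (∀ (A : Type u) [NonUnitalRing A] [Module F A] [IsScalarTower F A A]
      [SMulCommClass F A A], HoldsIn F A q) → H q) →
    (∀ q : QuasiId, H q → ∀ (K : Type) (ν : K → (Bool → ℕ) → (Bool → ℕ) → F),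
      HoldsIn F (AA ν) q) →
    ¬ ComputablePred (fun u : Poly => H (U, u)) ∧ ¬ ComputablePred H := by
  classical
  obtain ⟨Q, hQ, M, q0, N, -, hN, hund⟩ := exists_sys
  have hG : Countable (Gen (KM M)) := by
    have hf : Function.Injective (fun g : Gen (KM M) => match g with
        | .L => (Sum.inl (false, false) : Bool × Bool ⊕ (Bool ⊕ KM M))
        | .R => Sum.inl (false, true)
        | .a j => Sum.inl (true, j)
        | .b j => Sum.inr (Sum.inl j)
        | .st k => Sum.inr (Sum.inr k)) := by
      intro g g' h
      cases g <;> cases g' <;> simp_all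
    exact hf.countable
  obtain ⟨code, hc⟩ := exists_injective_nat (Gen (KM M))
  have hRI : Finite (RI M) := by
    have hf : Function.Injective (fun ρ : RI M => match ρ with
        | .commA => ((0 : Fin 6), (none : Option Q), (fun _ => ⟨0, M.hB⟩ : Bool → Fin M.B), false)
        | .commB => (1, none, fun _ => ⟨0, M.hB⟩, false)
        | .left q r j => (2, some q, r, j)
        | .turn q r => (3, some q, r, false)
        | .right q r j => (4, some q, r, j)
        | .back q r => (5, some q, r, false)) := by
      intro g g' h
      cases g <;> cases g' <;> simp_all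
    exact Finite.of_injective _ hf
  let _ : Fintype (RI M) := Fintype.ofFinite _
  let U : List Poly := (Finset.univ : Finset (RI M)).toList.map (relP M code)
  have hU1 : ∀ ρ, relP M code ρ ∈ U := fun ρ =>
    List.mem_map_of_mem (Finset.mem_toList.2 (Finset.mem_univ _))
  have hU2 : ∀ p ∈ U, ∃ ρ, relP M code ρ = p := by
    intro p hp
    obtain ⟨ρ, -, hρ⟩ := List.mem_map.1 hp
    exact ⟨ρ, hρ⟩
  refine ⟨U, fun F _ H h1 h2 => ?_⟩
  have key : ∀ k, M.Halts (some q0) (ini (N k)) ↔ H (U, cP M code q0 (ini (N k))) := by
    intro k
    constructor
    · intro h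
      exact h1 _ fun A _ _ _ _ => holds_of_halts M code F A U hU1 q0 _ h
    · intro h
      by_contra hcon
      exact not_holds M code hc F U hU2 q0 _ hcon (h2 _ h _ _)
  have hcomp : Computable (fun k => cP M code q0 (ini (N k))) := by
    have e : (fun k => cP M code q0 (ini (N k))) = fun k =>
        (fun m : ℕ => ([((1, 0), (code .L, (List.range m).map (fun _ => code (.a true)) ++
          [code (.st (false, q0, z0 M)), code .R]))] : Poly)) (N k) := by
      funext k
      simp only [cP, cw, monW, aw, ini, Bool.false_eq_true, if_false, if_true,
        List.replicate_zero, List.nil_append, List.map_append, List.map_replicate, List.map_cons,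
        List.map_nil, List.map_const', List.length_range]
    rw [e]
    have hp : Primrec (fun m : ℕ => ([((1, 0), (code .L,
        (List.range m).map (fun _ => code (.a true)) ++
          [code (.st (false, q0, z0 M)), code .R]))] : Poly)) := by
      refine Primrec.list_cons.comp ?_ (Primrec.const [])
      refine Primrec.pair (Primrec.const _) (Primrec.pair (Primrec.const _) ?_)
      refine Primrec.list_append.comp ?_ (Primrec.const _)
      exact Primrec.list_map Primrec.list_range (Primrec.const _).to₂
    exact hp.to_comp.comp hN
  constructor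
  · intro h
    apply hund
    refine (ComputablePred.computable_of_manyOneReducible (p := fun k =>
      H (U, cP M code q0 (ini (N k)))) ?_ h).of_eq fun k => (key k).symm
    exact ⟨_, hcomp, fun _ => Iff.rfl⟩
  · intro h
    apply hund
    refine (ComputablePred.computable_of_manyOneReducible (p := fun k =>
      H (U, cP M code q0 (ini (N k)))) ?_ h).of_eq fun k => (key k).symm
    exact ⟨fun k => (U, cP M code q0 (ini (N k))), (Computable.const U).pair hcomp,
      fun _ => Iff.rfl⟩

end Pool.Agent.K6.H80.EQ
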