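import Pool.Agent.K6.H80.EQ.Defs
import Pool.Agent.K6.H80.EQ.Auto

set_option autoImplicit false

/-!
# The algebra of the automaton is in the variety generated by the matrices of size at least three
-/

namespace Pool.Agent.K6.H80.EQ

open Matrix

universe u v

/-! ### Values of polynomials -/

section vals

variable {F : Type u} [Field F]

theorem lift_map {A : Type v} {B : Type v} [Semigroup A] [Semigroup B] (φ : A →ₙ* B) (x : ℕ → A)
    (w : FreeSemigroup ℕ) :
    φ (FreeSemigroup.lift x w) = FreeSemigroup.lift (fun i => φ (x i)) w := by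
  have : φ.comp (FreeSemigroup.lift x) = FreeSemigroup.lift (fun i => φ (x i)) :=
    FreeSemigroup.hom_ext rfl
  exact DFunLike.congr_fun this w

theorem idVal_map {A : Type v} {B : Type v} [NonUnitalRing A] [Module F A] [NonUnitalRing B]
    [Module F B] (φ : A →ₗ[F] B) (hφ : ∀ a b, φ (a * b) = φ a * φ b) (x : ℕ → A)
    (f : FreeSemigroup ℕ →₀ F) :
    φ (idVal F x f) = idVal F (fun i => φ (x i)) f := by
  unfold idVal
  rw [Finsupp.sum, Finsupp.sum, map_sum]
  refine Finset.sum_congr rfl fun w _ => ?_
  rw [map_smul]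
  congr 1
  exact lift_map (⟨φ, hφ⟩ : A →ₙ* B) x w

variable [Infinite F]

/-- matrices over commutative algebras satisfy the identities of the matrices over `F` -/
theorem matrix_inM (C : Type u) [CommRing C] [Algebra F C] (n : ℕ) (f : FreeSemigroup ℕ →₀ F)
    (hf : ∀ x : ℕ → Matrix (Fin n) (Fin n) F, idVal F x f = 0)
    (y : ℕ → Matrix (Fin n) (Fin n) C) : idVal F y f = 0 := by
  let P : Type u := MvPolynomial (ℕ × Fin n × Fin n) F
  let y' : ℕ → Matrix (Fin n) (Fin n) P := fun m i j => MvPolynomial.X (m, i, j)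
  have h1 : idVal F y' f = 0 := by
    refine Matrix.ext fun i j => ?_
    rw [Matrix.zero_apply]
    apply MvPolynomial.funext (R := F) (σ := ℕ × Fin n × Fin n)
    intro ε
    let φ : Matrix (Fin n) (Fin n) P →ₐ[F] Matrix (Fin n) (Fin n) F :=
      (MvPolynomial.aeval (R := F) ε).mapMatrix
    have h2 := idVal_map (F := F) φ.toLinearMap (fun a b => map_mul φ a b) y' f
    have h3 := hf fun k => φ (y' k)
    have h4 := congrFun (congrFun (h2.trans h3) i) j
    rw [map_zero]
    exact h4
  let φ : Matrix (Fin n) (Fin n) P →ₐ[F] Matrix (Fin n) (Fin n) C :=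
      (MvPolynomial.aeval (R := F) (fun p : ℕ × Fin n × Fin n => y p.1 p.2.1 p.2.2)).mapMatrix
  have h2 := idVal_map (F := F) φ.toLinearMap (fun a b => map_mul φ a b) y' f
  have h5 : (fun k => φ.toLinearMap (y' k)) = y := by
    funext k
    ext i j
    change MvPolynomial.aeval (R := F) (fun p : ℕ × Fin n × Fin n => y p.1 p.2.1 p.2.2)
      (MvPolynomial.X (k, i, j)) = y k i j
    rw [MvPolynomial.aeval_X]
  rw [h5, h1] at h2
  rw [← h2]
  exact map_zero _

end vals

/-! ### The matrices of the generators -/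

section mat

variable (F : Type u) [Field F] (K : Type) (n : ℕ) (hn : 3 ≤ n)

/-- the monomials -/
abbrev G : Type := (Bool → ℕ) × (K → ℕ) × (Bool → ℕ)

/-- the coefficients -/
abbrev C1 : Type u := AddMonoidAlgebra F (G K)

/-- the coefficients -/
abbrev CC : Type u := DualNumber (C1 F K)

variable {n}

/-- indices -/
def i0 : Fin n := ⟨0, by omega⟩
/-- indices -/
def i1 : Fin n := ⟨1, by omega⟩
/-- indices -/
def i2 : Fin n := ⟨2, by omega⟩

theorem i01 : (i0 hn) ≠ i1 hn := by simp [i0, i1]
theorem i02 : (i0 hn) ≠ i2 hn := by simp [i0, i2]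
theorem i12 : (i1 hn) ≠ i2 hn := by simp [i1, i2]

variable {K}

/-- a monomial -/
noncomputable def mono (g : G K) : C1 F K := AddMonoidAlgebra.single g 1

open Classical in
/-- the matrix of a generator -/
noncomputable def psi : Gen K → Matrix (Fin n) (Fin n) (CC F K)
  | .L => Matrix.single (i0 hn) (i1 hn) (TrivSqZeroExt.inr 1)
  | .a j => Matrix.single (i1 hn) (i1 hn) (TrivSqZeroExt.inl (mono F (Pi.single j 1, 0, 0)))
  | .st k => Matrix.single (i1 hn) (i2 hn) (TrivSqZeroExt.inl (mono F (0, Pi.single k 1, 0)))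
  | .b j => Matrix.single (i2 hn) (i2 hn) (TrivSqZeroExt.inl (mono F (0, 0, Pi.single j 1)))
  | .R => Matrix.single (i2 hn) (i0 hn) 1

open Classical in
/-- the vector of a state -/
noncomputable def vec : St K → Fin n → CC F K
  | .dead => 0
  | .init => Pi.single (i0 hn) 1
  | .A i => Pi.single (i1 hn) (TrivSqZeroExt.inr (mono F (i, 0, 0)))
  | .B k i i' => Pi.single (i2 hn) (TrivSqZeroExt.inr (mono F (i, Pi.single k 1, i')))
  | .fin k i i' => Pi.single (i0 hn) (TrivSqZeroExt.inr (mono F (i, Pi.single k 1, i')))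

theorem vm {R : Type u} [CommRing R] (p p' q : Fin n) (c d : R) :
    Matrix.vecMul (Pi.single p c) (Matrix.single p' q d) =
      if p = p' then Pi.single q (c * d) else 0 := by
  classical
  ext j
  rw [Matrix.vecMul, dotProduct, Finset.sum_eq_single p]
  · by_cases h1 : p = p'
    · subst h1
      by_cases h2 : j = q
      · subst h2; simp
      · simp [h2, Ne.symm h2]
    · simp [h1, Ne.symm h1]
  · intro b _ hb
    simp [hb]
  · simp

theorem mono_mul (g g' : G K) : mono F g * mono F g' = mono F (g + g') := by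
  simp [mono, AddMonoidAlgebra.single_mul_single]

theorem vec_read (σ : St K) (g : Gen K) :
    vec F hn (read σ g) = Matrix.vecMul (vec F hn σ) (psi F hn g) := by
  classical
  have h01 := i01 hn
  have h02 := i02 hn
  have h12 := i12 hn
  cases σ with
  | dead => rw [read_dead]; simp [vec]
  | init =>
    cases g with
    | L => simp only [read, vec, psi, vm, if_true, one_mul]; rfl
    | _ => simp only [read, vec, psi, vm, if_neg h01, if_neg h02, if_neg h12]
  | A i =>
    cases g with
    | a j =>
      simp only [read, vec, psi, vm, if_true]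
      rw [TrivSqZeroExt.inr_mul_inl, op_smul_eq_smul, smul_eq_mul, mul_comm, mono_mul]
      simp
    | st k =>
      simp only [read, vec, psi, vm, if_true]
      rw [TrivSqZeroExt.inr_mul_inl, op_smul_eq_smul, smul_eq_mul, mul_comm, mono_mul]
      simp
    | _ => simp only [read, vec, psi, vm, if_neg h01.symm, if_neg h12]
  | B k i i' =>
    cases g with
    | b j =>
      simp only [read, vec, psi, vm, if_true]
      rw [TrivSqZeroExt.inr_mul_inl, op_smul_eq_smul, smul_eq_mul, mul_comm, mono_mul]
      simp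
    | R =>
      simp only [read, vec, psi, vm, if_true, mul_one]
    | _ => simp only [read, vec, psi, vm, if_neg h02.symm, if_neg h12.symm]
  | fin k i i' =>
    cases g with
    | L =>
      simp only [read, vec, psi, vm, if_true]
      rw [TrivSqZeroExt.inr_mul_inr, Pi.single_zero]
    | _ => simp only [read, vec, psi, vm, if_neg h01, if_neg h02]

theorem vec_readW (σ : St K) (w : List (Gen K)) :
    vec F hn (readW σ w) = Matrix.vecMul (vec F hn σ) (w.map (psi F hn)).prod := by
  induction w generalizing σ with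
  | nil => simp
  | cons g w ih => rw [readW_cons, ih, vec_read, List.map_cons, List.prod_cons, vecMul_vecMul]

/-- a linear form on the coefficients -/
noncomputable def lin (d : G K → F) : C1 F K →ₗ[F] F :=
  (Finsupp.linearCombination F d) ∘ₗ (AddMonoidAlgebra.coeffLinearEquiv F).toLinearMap

theorem lin_mono (d : G K → F) (g : G K) : lin F d (mono F g) = d g := by
  simp [lin, mono]

/-- the second component -/
noncomputable def sndL : CC F K →ₗ[F] C1 F K where
  toFun := TrivSqZeroExt.snd
  map_add' _ _ := rfl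
  map_smul' _ _ := rfl

/-- the first component -/
noncomputable def fstL : CC F K →ₗ[F] C1 F K where
  toFun := TrivSqZeroExt.fst
  map_add' _ _ := rfl
  map_smul' _ _ := rfl

theorem sndL_apply (x : CC F K) : sndL F x = TrivSqZeroExt.snd x := rfl
theorem fstL_apply (x : CC F K) : fstL F x = TrivSqZeroExt.fst x := rfl

open Classical in
/-- the linear form given by a function on states -/
noncomputable def form (f : St K → F) : (Fin n → CC F K) →ₗ[F] F :=
  (lin F fun g => if g = 0 then f .init else 0) ∘ₗ fstL F (K := K) ∘ₗ LinearMap.proj (i0 hn) +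
    ((lin F fun g => f (.A g.1)) ∘ₗ sndL F (K := K) ∘ₗ LinearMap.proj (i1 hn) +
    ((lin F fun g => if h : ∃ k, g.2.1 = Pi.single k 1 then f (.B h.choose g.1 g.2.2) else 0) ∘ₗ
      sndL F (K := K) ∘ₗ LinearMap.proj (i2 hn) +
    (lin F fun g => if h : ∃ k, g.2.1 = Pi.single k 1 then f (.fin h.choose g.1 g.2.2) else 0) ∘ₗ
      sndL F (K := K) ∘ₗ LinearMap.proj (i0 hn)))

theorem form_vec (f : St K → F) (hf : f .dead = 0) (σ : St K) :
    form F hn f (vec F hn σ) = f σ := by
  classical
  have h01 := i01 hn
  have h02 := i02 hn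
  have h12 := i12 hn
  have hk : ∀ k : K, ∃ k', (Pi.single k 1 : K → ℕ) = Pi.single k' 1 := fun k => ⟨k, rfl⟩
  have hk' : ∀ k : K, (hk k).choose = k := by
    intro k
    have h1 := (hk k).choose_spec
    by_contra hne
    have h2 := congrFun h1 k
    rw [Pi.single_eq_same, Pi.single_eq_of_ne (Ne.symm hne)] at h2
    exact one_ne_zero h2
  cases σ with
  | dead => simp [vec, hf]
  | init =>
    have e : (1 : C1 F K) = mono F 0 := rfl
    simp only [form, vec, LinearMap.add_apply, LinearMap.comp_apply, LinearMap.proj_apply,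
      Pi.single_eq_same, Pi.single_eq_of_ne h01.symm, Pi.single_eq_of_ne h02.symm, map_zero,
      fstL_apply, sndL_apply,
      TrivSqZeroExt.fst_one, TrivSqZeroExt.snd_one, TrivSqZeroExt.snd_zero]
    rw [e, lin_mono, if_pos rfl]
    simp
  | A i =>
    simp only [form, vec, LinearMap.add_apply, LinearMap.comp_apply, LinearMap.proj_apply,
      Pi.single_eq_same, Pi.single_eq_of_ne h01, Pi.single_eq_of_ne h12.symm, map_zero,
      sndL_apply, TrivSqZeroExt.snd_inr,
      TrivSqZeroExt.snd_zero, lin_mono]
    simp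
  | B k i i' =>
    simp only [form, vec, LinearMap.add_apply, LinearMap.comp_apply, LinearMap.proj_apply,
      Pi.single_eq_same, Pi.single_eq_of_ne h02, Pi.single_eq_of_ne h12, map_zero,
      sndL_apply, TrivSqZeroExt.snd_inr,
      TrivSqZeroExt.snd_zero, lin_mono, dif_pos (hk k), hk' k]
    simp
  | fin k i i' =>
    simp only [form, vec, LinearMap.add_apply, LinearMap.comp_apply, LinearMap.proj_apply,
      Pi.single_eq_same, Pi.single_eq_of_ne h01.symm, Pi.single_eq_of_ne h02.symm, map_zero,
      fstL_apply, sndL_apply,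
      TrivSqZeroExt.snd_inr, TrivSqZeroExt.fst_inr,
      TrivSqZeroExt.snd_zero, lin_mono, dif_pos (hk k), hk' k]
    simp

end mat

/-! ### The algebra of the automaton -/

section alg

variable {F : Type u} [Field F] {K : Type} (ν : K → (Bool → ℕ) → (Bool → ℕ) → F)

/-- the algebra generated by the operators of the generators -/
def AA : NonUnitalSubalgebra F (Module.End F (Fn ν)) :=
  NonUnitalAlgebra.adjoin F (Set.range (op ν))

/-- the operator of a noncommutative polynomial -/
noncomputable def TT : FreeAlgebra F (Gen K) →ₐ[F] Module.End F (Fn ν) :=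
  FreeAlgebra.lift F (op ν)

/-- the word in the free algebra -/
def fw (w : List (Gen K)) : FreeAlgebra F (Gen K) := (w.map (FreeAlgebra.ι F)).prod

theorem mem_span_fw (h : FreeAlgebra F (Gen K)) :
    h ∈ Submodule.span F (Set.range (fw (F := F) (K := K))) := by
  have h1 : h ∈ Subalgebra.toSubmodule (Algebra.adjoin F
      (Set.range (FreeAlgebra.ι F : Gen K → FreeAlgebra F (Gen K)))) := by
    rw [FreeAlgebra.adjoin_range_ι]; trivial
  rw [Algebra.adjoin_eq_span] at h1
  refine Submodule.span_mono ?_ h1
  intro x hx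
  obtain ⟨l, hl, rfl⟩ := Submonoid.exists_list_of_mem_closure hx
  have : ∃ w : List (Gen K), w.map (FreeAlgebra.ι F) = l := by
    clear hx h1
    induction l with
    | nil => exact ⟨[], rfl⟩
    | cons a l ih =>
      obtain ⟨w, hw⟩ := ih fun y hy => hl y (List.mem_cons_of_mem _ hy)
      obtain ⟨g, hg⟩ := hl a List.mem_cons_self
      exact ⟨g :: w, by rw [List.map_cons, hw, hg]⟩
  obtain ⟨w, hw⟩ := this
  exact ⟨w, by rw [fw, hw]⟩

theorem TT_fw (w : List (Gen K)) : TT ν (fw w) = opW ν w := by
  rw [fw, map_list_prod, List.map_map, opW]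
  congr 2
  funext g
  simp [TT]

theorem TT_apply {n : ℕ} (hn : 3 ≤ n) (h : FreeAlgebra F (Gen K)) (f : Fn ν) (σ : St K) :
    (TT ν h f).1 σ = form F hn f.1 (Matrix.vecMul (vec F hn σ)
      (FreeAlgebra.lift F (psi F hn) h)) := by
  refine Submodule.span_induction (p := fun h _ => (TT ν h f).1 σ = form F hn f.1
    (Matrix.vecMul (vec F hn σ) (FreeAlgebra.lift F (psi F hn) h))) ?_ ?_ ?_ ?_ (mem_span_fw h)
  · rintro _ ⟨w, rfl⟩
    rw [TT_fw, opW_apply, fw, map_list_prod, List.map_map]
    have e : (⇑(FreeAlgebra.lift F (psi F (K := K) hn)) ∘ FreeAlgebra.ι F) =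
        psi F (K := K) hn := by
      funext g
      simp
    rw [e, ← vec_readW, form_vec F hn f.1 f.2.1]
  · simp [Fn.zero_val]
  · intro x y _ _ hx hy
    rw [map_add, map_add, Matrix.vecMul_add, map_add, ← hx, ← hy]
    rfl
  · intro c x _ hx
    rw [map_smul, map_smul, Matrix.vecMul_smul, map_smul, ← hx]
    rfl

theorem AA_le (x : AA ν) : ∃ h : FreeAlgebra F (Gen K), TT ν h = x.1 := by
  have h1 : (AA ν : Set (Module.End F (Fn ν))) ⊆ (TT ν).range := by
    have : AA ν ≤ (TT ν).range.toNonUnitalSubalgebra := by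
      refine NonUnitalAlgebra.adjoin_le ?_
      rintro _ ⟨g, rfl⟩
      exact ⟨FreeAlgebra.ι F g, by simp [TT]⟩
    exact this
  exact h1 x.2

/-- the inclusion -/
def valL : AA ν →ₗ[F] Module.End F (Fn ν) where
  toFun x := x.1
  map_add' _ _ := rfl
  map_smul' _ _ := rfl

theorem valL_apply (x : AA ν) : valL ν x = x.1 := rfl

/-- The algebra of the automaton satisfies the identities of the matrices of size at least three. -/
theorem inM [CharZero F] {n : ℕ} (hn : 3 ≤ n) : InM F (AA ν) n := by
  intro f hf x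
  choose h hh using fun i => AA_le ν (x i)
  have h1 : idVal F (fun i => FreeAlgebra.lift F (psi F hn) (h i)) f = 0 :=
    matrix_inM (CC F K) n f hf _
  have h2 := idVal_map (F := F) (FreeAlgebra.lift F (psi F hn)).toLinearMap
    (fun a b => map_mul (FreeAlgebra.lift F (psi F hn)) a b) h f
  have h3 : FreeAlgebra.lift F (psi F hn) (idVal F h f) = 0 := h2.trans h1
  have h4 : TT ν (idVal F h f) = 0 := by
    ext φ σ
    rw [TT_apply ν hn, h3]
    simp [Fn.zero_val]
  have h5 := idVal_map (F := F) (TT ν).toLinearMap (fun a b => map_mul (TT ν) a b) h f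
  have h6 := idVal_map (F := F) (valL ν) (fun _ _ => rfl) x f
  have h7 : (fun i => (TT ν).toLinearMap (h i)) = fun i => (x i : Module.End F (Fn ν)) :=
    funext hh
  rw [h7] at h5
  apply Subtype.ext
  exact h6.trans (h5.symm.trans h4)

end alg

end Pool.Agent.K6.H80.EQ
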